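import Pool.Agent.L0h45.LR.Stm

/-!
# Module FIB of project LR (helper45): the tuples with given `x`, `y` in a class and in a box
-/

set_option autoImplicit false
set_option linter.all false

open Finset
open scoped Classical

namespace Pool.Agent.L0h53.LR

open Pool.Agent.L0h45.LR
open Pool.Agent.N874.PP (Tup chA chB gq tau Two)

theorem sum_blocks (b : ℕ → ℤ) (hb : Monotone b) (P : ℤ → Prop) (m : ℕ) :
    ∑ i ∈ range m, ((Ioc (b i) (b (i + 1))).filter P).card = ((Ioc (b 0) (b m)).filter P).card := by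
  induction m with
  | zero => simp
  | succ m ih =>
    rw [sum_range_succ, ih]
    have h2 := hb (Nat.zero_le m)
    have h3 := hb (Nat.le_succ m)
    have h1 : Ioc (b 0) (b (m + 1)) = Ioc (b 0) (b m) ∪ Ioc (b m) (b (m + 1)) := by
      ext c
      simp only [mem_union, mem_Ioc]
      simp only [Nat.succ_eq_add_one] at h3
      omega
    rw [h1, filter_union, card_union_of_disjoint]
    rw [disjoint_left]
    intro c hc hc'
    simp only [mem_filter, mem_Ioc] at hc hc'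
    omega

theorem mem_block (b : ℕ → ℤ) (m : ℕ) (c : ℤ) (h0 : b 0 < c) (h1 : c ≤ b m) :
    ∃ i < m, b i < c ∧ c ≤ b (i + 1) := by
  induction m with
  | zero => omega
  | succ m ih =>
    by_cases h : c ≤ b m
    · obtain ⟨i, hi, h2⟩ := ih h
      exact ⟨i, by omega, h2⟩
    · exact ⟨m, by omega, by omega, h1⟩

theorem exI (m r : ℝ) (hr : 0 ≤ r) : ∃ (s : ℤ) (t : ℕ), (t : ℝ) ≤ 2 * r + 1 ∧
    ∀ ζ : ℤ, |(ζ : ℝ) - m| ≤ r → ζ ∈ Ioc s (s + t) := by
  refine ⟨⌈m - r⌉ - 1, ⌊2 * r⌋₊ + 1, ?_, ?_⟩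
  · push_cast
    have := Nat.floor_le (show (0 : ℝ) ≤ 2 * r by positivity)
    linarith
  · intro ζ hζ
    rw [abs_le] at hζ
    rw [mem_Ioc]
    constructor
    · have h : ⌈m - r⌉ ≤ ζ := Int.ceil_le.2 (by linarith [hζ.1])
      omega
    · have h1 : (ζ : ℝ) < ((⌈m - r⌉ + (⌊2 * r⌋₊ : ℤ) + 1 : ℤ) : ℝ) := by
        push_cast
        have h2 := Int.le_ceil (m - r)
        have h3 := Nat.lt_floor_add_one (2 * r)
        linarith [hζ.2]
      have h4 : ζ < ⌈m - r⌉ + (⌊2 * r⌋₊ : ℤ) + 1 := by exact_mod_cast h1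
      push_cast
      omega

/-- one block of values of `c` -/
theorem block (hEQ : S_EQ) (L : ℝ) (M T : ℕ) (a x y : ℤ) (β : Tup ℤ) (hL : 1 ≤ L) (hM : 1 ≤ M)
    (hT : 1 ≤ T) (hx : x ≠ 0) (hy : y ≠ 0) (hβx : (M : ℤ) ∣ x - β.x) (hβy : (M : ℤ) ∣ y - β.y)
    (hβ : (M : ℤ) ∣ chA β - a) (hxL : |(x : ℝ)| * (T : ℝ) ^ 2 ≤ L) (b₀ b₁ : ℤ) (h01 : b₀ ≤ b₁)
    (hlen : ((b₁ - b₀ : ℤ) : ℝ) ≤ 3 * L)
    (hK : ∀ c : ℤ, b₀ < c → c ≤ b₁ → |3 * (c : ℝ) ^ 2 - 3 * (b₀ : ℝ) ^ 2| ≤ 10 * (|(x : ℝ)| * (L * (T : ℝ) ^ 2)))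
    (S : Finset (Tup ℤ)) (hS : ∀ B ∈ S, B.x = x ∧ B.y = y ∧ chA B = a ∧ Cgr M β B ∧ Bx L T B ∧ b₀ < B.c ∧ B.c ≤ b₁) :
    (S.card : ℝ) ≤ ((Int.gcd x (2 * y) : ℝ) / |(x : ℝ)|) *
        (6 * (L * (T * √(T : ℝ)) * √(|(x : ℝ)| / |(y : ℝ)|)) / M + 1) *
        (((Ioc b₀ b₁).filter (fun c : ℤ => (M : ℤ) ∣ c - β.c ∧ ((Int.gcd x (2 * y) : ℕ) : ℤ) ∣ 3 * c ^ 2 + a)).card : ℝ) +
      4 * (3 * L / √|(x : ℝ)|) * √|((3 * M : ℤ) : ℝ)| * (1 + Real.log (3 * L)) ^ 2 * tn x.natAbs := by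
  have hx' : 0 < |(x : ℝ)| := abs_pos.2 (by exact_mod_cast hx)
  have hy' : 0 < |(y : ℝ)| := abs_pos.2 (by exact_mod_cast hy)
  have hT' : (1 : ℝ) ≤ T := by exact_mod_cast hT
  have hT0 : (0 : ℝ) < T := by linarith
  have hL0 : (0 : ℝ) < L := by linarith
  have hM' : (1 : ℝ) ≤ M := by exact_mod_cast hM
  have hM0 : (0 : ℝ) < M := by linarith
  have hMz : (0 : ℤ) < M := by exact_mod_cast hM
  obtain ⟨Q, hQ⟩ : ∃ Q, Q = L * (T * √(T : ℝ)) * √(|(x : ℝ)| / |(y : ℝ)|) := ⟨_, rfl⟩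
  have hQ0 : 0 ≤ Q := by rw [hQ]; positivity
  have hQsq : Q ^ 2 = L ^ 2 * (T : ℝ) ^ 3 * (|(x : ℝ)| / |(y : ℝ)|) := by
    rw [hQ, mul_pow, mul_pow, mul_pow, Real.sq_sqrt hT0.le, Real.sq_sqrt (by positivity)]
    ring
  -- the interval of `z`
  obtain ⟨κ, ρ, hρ0, hρQ, hκ⟩ : ∃ κ ρ : ℝ, 0 ≤ ρ ∧ ρ ≤ 3 * Q ∧
      ∀ B ∈ S, |(B.z : ℝ) - κ| ≤ ρ := by
    have hkey : ∀ B ∈ S, |2 * (y : ℝ) * (B.z : ℝ) + (3 * (b₀ : ℝ) ^ 2 + a)| ≤ 11 * (|(x : ℝ)| * (L * (T : ℝ) ^ 2)) := by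
      intro B hB
      obtain ⟨h1, h2, h3, h4, h5, h6, h7⟩ := hS B hB
      have e1 : (-3 * (B.c : ℝ) ^ 2 - 2 * y * B.z - x * B.w) = a := by
        have : chA B = a := h3
        unfold chA at this
        rw [h1, h2] at this
        exact_mod_cast this
      have e2 : 2 * (y : ℝ) * (B.z : ℝ) + (3 * (b₀ : ℝ) ^ 2 + a) =
          -((x : ℝ) * B.w) - (3 * (B.c : ℝ) ^ 2 - 3 * (b₀ : ℝ) ^ 2) := by
        rw [← e1]; ring
      rw [e2]
      have e3 := hK B.c h6 h7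
      have e4 : |(x : ℝ) * B.w| ≤ |(x : ℝ)| * (L * (T : ℝ) ^ 2) := by
        rw [abs_mul]
        exact mul_le_mul_of_nonneg_left h5.w (abs_nonneg _)
      calc |-((x : ℝ) * B.w) - (3 * (B.c : ℝ) ^ 2 - 3 * (b₀ : ℝ) ^ 2)|
          ≤ |-((x : ℝ) * B.w)| + |3 * (B.c : ℝ) ^ 2 - 3 * (b₀ : ℝ) ^ 2| := abs_sub _ _
        _ ≤ _ := by rw [abs_neg]; linarith
    obtain ⟨α, hα⟩ : ∃ α : ℝ, α = 11 * (|(x : ℝ)| * (L * (T : ℝ) ^ 2)) / (2 * |(y : ℝ)|) := ⟨_, rfl⟩
    have hα0 : 0 ≤ α := by rw [hα]; positivity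
    have hαL : α * (L * T) ≤ (3 * Q) ^ 2 := by
      rw [mul_pow, hQsq, hα]
      have : 11 * (|(x : ℝ)| * (L * (T : ℝ) ^ 2)) / (2 * |(y : ℝ)|) * (L * T) =
          11 / 2 * (L ^ 2 * (T : ℝ) ^ 3 * (|(x : ℝ)| / |(y : ℝ)|)) := by
        field_simp
      rw [this]
      have : 0 ≤ L ^ 2 * (T : ℝ) ^ 3 * (|(x : ℝ)| / |(y : ℝ)|) := by positivity
      nlinarith
    by_cases hc : α ≤ L * T
    · refine ⟨-(3 * (b₀ : ℝ) ^ 2 + a) / (2 * y), α, hα0, ?_, ?_⟩
      · have : α ^ 2 ≤ (3 * Q) ^ 2 := by nlinarith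
        exact le_of_sq_le_sq this (by positivity)
      · intro B hB
        have h := hkey B hB
        have hyne : (y : ℝ) ≠ 0 := by exact_mod_cast hy
        have e : (B.z : ℝ) - -(3 * (b₀ : ℝ) ^ 2 + a) / (2 * y) =
            (2 * (y : ℝ) * (B.z : ℝ) + (3 * (b₀ : ℝ) ^ 2 + a)) / (2 * y) := by
          field_simp
          ring
        rw [e, abs_div, abs_mul, abs_of_pos (show (0 : ℝ) < 2 by norm_num), hα]
        gcongr
    · push Not at hc
      refine ⟨0, L * T, by positivity, ?_, ?_⟩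
      · have : (L * T) ^ 2 ≤ (3 * Q) ^ 2 := by
          have : 0 ≤ L * T := by positivity
          nlinarith
        exact le_of_sq_le_sq this (by positivity)
      · intro B hB
        obtain ⟨h1, h2, h3, h4, h5, h6, h7⟩ := hS B hB
        rw [sub_zero]
        exact h5.z
  obtain ⟨s, t, ht, hst⟩ := exI ((κ - β.z) / M) (ρ / M) (by positivity)
  -- the constant `e`
  have hE : (M : ℤ) ∣ x * β.w + 2 * y * β.z + 3 * β.c ^ 2 + a := by
    obtain ⟨p, hp⟩ := hβx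
    obtain ⟨q, hq⟩ := hβy
    obtain ⟨r, hr⟩ := hβ
    unfold chA at hr
    refine ⟨p * β.w + 2 * q * β.z - r, ?_⟩
    have hx2 : x = β.x + M * p := by linarith
    have hy2 : y = β.y + M * q := by linarith
    rw [hx2, hy2]
    linear_combination -hr
  obtain ⟨e, he⟩ := hE
  -- the interval of `γ`
  obtain ⟨u, hu⟩ : ∃ u : ℤ, u = (b₀ - β.c) / M := ⟨_, rfl⟩
  obtain ⟨v, hv⟩ : ∃ v : ℤ, v = (b₁ - β.c) / M := ⟨_, rfl⟩
  have huv : u ≤ v := by
    rw [hu, hv]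
    exact Int.ediv_le_ediv hMz (by linarith)
  have hγ : ∀ γ : ℤ, γ ∈ Ioc u v ↔ b₀ < β.c + M * γ ∧ β.c + M * γ ≤ b₁ := by
    intro γ
    rw [mem_Ioc, hu, hv, Int.ediv_lt_iff_lt_mul hMz, Int.le_ediv_iff_mul_le hMz]
    constructor
    · rintro ⟨h1, h2⟩
      constructor <;> linarith
    · rintro ⟨h1, h2⟩
      constructor <;> linarith
  obtain ⟨n, hn⟩ : ∃ n : ℕ, v = u + n := ⟨(v - u).toNat, by rw [Int.toNat_of_nonneg (by linarith)]; ring⟩
  have hnL : (n : ℝ) ≤ 3 * L := by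
    refine le_trans ?_ hlen
    have h1 : (n : ℤ) ≤ b₁ - b₀ := by
      have h2 : v * M ≤ b₁ - β.c := by rw [hv]; exact Int.ediv_mul_le _ (by omega)
      have h3 : b₀ - β.c < (u + 1) * M := by rw [hu]; exact Int.lt_ediv_add_one_mul_self _ hMz
      rw [hn] at h2
      by_contra hcon
      push Not at hcon
      have h4 : (n : ℤ) * M ≤ b₁ - b₀ + M - 1 := by linarith
      have h5 : (b₁ - b₀ + 1) * (M : ℤ) ≤ n * M := mul_le_mul_of_nonneg_right (by linarith) hMz.le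
      nlinarith
    exact_mod_cast h1
  have hxabs : ((x.natAbs : ℕ) : ℝ) = |(x : ℝ)| := by
    rw [Nat.cast_natAbs, Int.cast_abs]
  have hX1 : 1 ≤ x.natAbs := Int.natAbs_pos.2 hx
  have hXL : ((x.natAbs : ℕ) : ℝ) ≤ 3 * L := by
    rw [hxabs]
    have : |(x : ℝ)| * 1 ≤ |(x : ℝ)| * (T : ℝ) ^ 2 := by
      gcongr
      nlinarith
    linarith
  have hmain := hEQ (3 * L) x.natAbs (3 * M) (6 * β.c) (2 * y) e u s n t hX1 hXL hnL (by positivity)
  rw [← hn] at hmain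
  have hgcd : Int.gcd ((x.natAbs : ℕ) : ℤ) (2 * y) = Int.gcd x (2 * y) := by
    unfold Int.gcd; simp [Int.natAbs_abs]
  rw [hgcd] at hmain
  -- injection
  have hcard : (S.card : ℝ) ≤ ((((Ioc u v) ×ˢ (Ioc s (s + t))).filter
      (fun z : ℤ × ℤ => ((x.natAbs : ℕ) : ℤ) ∣ 3 * M * z.1 ^ 2 + 6 * β.c * z.1 + 2 * y * z.2 + e)).card : ℝ) := by
    have : S.card ≤ (((Ioc u v) ×ˢ (Ioc s (s + t))).filter
      (fun z : ℤ × ℤ => ((x.natAbs : ℕ) : ℤ) ∣ 3 * M * z.1 ^ 2 + 6 * β.c * z.1 + 2 * y * z.2 + e)).card := by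
      refine card_le_card_of_injOn (fun B => ((B.c - β.c) / M, (B.z - β.z) / M)) ?_ ?_
      · intro B hB
        rw [mem_coe] at hB
        obtain ⟨h1, h2, h3, h4, h5, h6, h7⟩ := hS B hB
        obtain ⟨γ, hγ1⟩ := h4.c
        obtain ⟨ζ, hζ1⟩ := h4.z
        obtain ⟨ω, hω1⟩ := h4.w
        have g1 : (B.c - β.c) / (M : ℤ) = γ := by rw [hγ1]; exact Int.mul_ediv_cancel_left _ (by omega)
        have g2 : (B.z - β.z) / (M : ℤ) = ζ := by rw [hζ1]; exact Int.mul_ediv_cancel_left _ (by omega)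
        simp only [coe_filter, Set.mem_setOf_eq, mem_product, g1, g2]
        refine ⟨⟨?_, ?_⟩, ?_⟩
        · rw [hγ]
          have : β.c + M * γ = B.c := by linarith
          rw [this]
          exact ⟨h6, h7⟩
        · apply hst
          have h8 := hκ B hB
          have h9 : (B.z : ℝ) = β.z + M * ζ := by
            have : B.z = β.z + M * ζ := by linarith
            exact_mod_cast this
          have h10 : (ζ : ℝ) - (κ - β.z) / M = ((B.z : ℝ) - κ) / M := by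
            rw [h9]; field_simp; ring
          rw [h10, abs_div, abs_of_pos hM0]
          gcongr
        · rw [Int.natAbs_dvd]
          refine ⟨-ω, ?_⟩
          have h8 : (M : ℤ) * (3 * M * γ ^ 2 + 6 * β.c * γ + 2 * y * ζ + e) = M * (x * -ω) := by
            have h9 : chA B = a := h3
            unfold chA at h9
            rw [h1, h2] at h9
            have c1 : B.c = β.c + M * γ := by linarith
            have c2 : B.z = β.z + M * ζ := by linarith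
            have c3 : B.w = β.w + M * ω := by linarith
            rw [c1, c2, c3] at h9
            linear_combination (-1 : ℤ) * h9 - he
          exact mul_left_cancel₀ (by omega) h8
      · intro B hB B' hB' hBB
        rw [mem_coe] at hB hB'
        obtain ⟨h1, h2, h3, h4, h5, h6, h7⟩ := hS B hB
        obtain ⟨k1, k2, k3, k4, k5, k6, k7⟩ := hS B' hB'
        simp only [Prod.mk.injEq] at hBB
        have m1 : B.c = B'.c := by
          obtain ⟨γ, hγ1⟩ := h4.c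
          obtain ⟨γ', hγ1'⟩ := k4.c
          rw [hγ1, hγ1', Int.mul_ediv_cancel_left _ (by omega), Int.mul_ediv_cancel_left _ (by omega)] at hBB
          rw [hBB.1] at hγ1
          linarith
        have m2 : B.z = B'.z := by
          obtain ⟨γ, hγ1⟩ := h4.z
          obtain ⟨γ', hγ1'⟩ := k4.z
          rw [hγ1, hγ1', Int.mul_ediv_cancel_left _ (by omega : (M : ℤ) ≠ 0), Int.mul_ediv_cancel_left _ (by omega : (M : ℤ) ≠ 0)] at hBB
          rw [hBB.2] at hγ1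
          linarith
        have m3 : B.w = B'.w := by
          have h9 : chA B = a := h3
          have h10 : chA B' = a := k3
          unfold chA at h9 h10
          rw [h1, h2, m1, m2] at h9
          rw [k1, k2] at h10
          have : x * B.w = x * B'.w := by linarith
          exact mul_left_cancel₀ hx this
        ext
        · rw [h1, k1]
        · rw [h2, k2]
        · exact m1
        · exact m2
        · exact m3
    exact_mod_cast this
  refine hcard.trans (hmain.trans ?_)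
  have hR : (((Ioc u v).filter (fun γ : ℤ => ((Int.gcd x (2 * y) : ℕ) : ℤ) ∣ 3 * M * γ ^ 2 + 6 * β.c * γ + e)).card : ℝ) ≤
      (((Ioc b₀ b₁).filter (fun c : ℤ => (M : ℤ) ∣ c - β.c ∧ ((Int.gcd x (2 * y) : ℕ) : ℤ) ∣ 3 * c ^ 2 + a)).card : ℝ) := by
    have : ((Ioc u v).filter (fun γ : ℤ => ((Int.gcd x (2 * y) : ℕ) : ℤ) ∣ 3 * M * γ ^ 2 + 6 * β.c * γ + e)).card ≤
      ((Ioc b₀ b₁).filter (fun c : ℤ => (M : ℤ) ∣ c - β.c ∧ ((Int.gcd x (2 * y) : ℕ) : ℤ) ∣ 3 * c ^ 2 + a)).card := by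
      refine card_le_card_of_injOn (fun γ => β.c + M * γ) ?_ ?_
      · intro γ h
        simp only [coe_filter, Set.mem_setOf_eq] at h ⊢
        obtain ⟨h1, h2⟩ := h
        refine ⟨?_, ⟨γ, by ring⟩, ?_⟩
        · rw [mem_Ioc]; exact (hγ γ).1 h1
        · have e1 : 3 * (β.c + M * γ) ^ 2 + a = M * (3 * M * γ ^ 2 + 6 * β.c * γ + e) - (x * β.w + (2 * y) * β.z) := by
            linear_combination he
          rw [e1]
          apply dvd_sub (Dvd.dvd.mul_left h2 _)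
          exact dvd_add (Dvd.dvd.mul_right (Int.gcd_dvd_left _ _) _) (Dvd.dvd.mul_right (Int.gcd_dvd_right _ _) _)
      · intro γ h γ' h' hh
        simp only at hh
        have : (M : ℤ) * γ = M * γ' := by linarith
        exact mul_left_cancel₀ (by omega) this
    exact_mod_cast this
  rw [hxabs]
  have htt : (t : ℝ) ≤ 6 * Q / M + 1 := by
    refine ht.trans ?_
    have : 2 * (ρ / M) ≤ 6 * Q / M := by
      rw [← mul_div_assoc]
      exact div_le_div_of_nonneg_right (by linarith) hM0.le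
    linarith
  rw [← hQ]
  have hpos : 0 ≤ ((Int.gcd x (2 * y) : ℕ) : ℝ) / |(x : ℝ)| := by positivity
  gcongr

theorem t_FIB : S_EQ → S_RHO → S_FIB := by
  intro hEQ hRHO
  refine ⟨1000, by norm_num, ?_⟩
  intro L M T n a x y β hL hM hMo hT hn hx hy hcop hβx hβy hβ hxL hyL hnL S hS
  have hx' : 0 < |(x : ℝ)| := abs_pos.2 (by exact_mod_cast hx)
  have hx1 : 1 ≤ |(x : ℝ)| := by
    have : 1 ≤ |x| := Int.one_le_abs hx
    exact_mod_cast this
  have hy' : 0 < |(y : ℝ)| := abs_pos.2 (by exact_mod_cast hy)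
  have hT' : (1 : ℝ) ≤ T := by exact_mod_cast hT
  have hT0 : (0 : ℝ) < T := by linarith
  have hL0 : (0 : ℝ) < L := by linarith
  have hM' : (1 : ℝ) ≤ M := by exact_mod_cast hM
  have hM0 : (0 : ℝ) < M := by linarith
  have hn' : (1 : ℝ) ≤ n := by exact_mod_cast hn
  have hn0 : (0 : ℝ) < n := by linarith
  obtain ⟨F, hF⟩ : ∃ F : ℕ, F = ⌊L⌋₊ := ⟨_, rfl⟩
  have hFL : (F : ℝ) ≤ L := by rw [hF]; exact Nat.floor_le hL0.le
  have hLF : L < F + 1 := by rw [hF]; exact Nat.lt_floor_add_one L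
  obtain ⟨N, hN⟩ : ∃ N : ℕ, N = 2 * F + 1 := ⟨_, rfl⟩
  have hN3 : (N : ℝ) ≤ 3 * L := by rw [hN]; push_cast; linarith
  obtain ⟨b, hb⟩ : ∃ b : ℕ → ℤ, ∀ i, b i = -(F : ℤ) - 1 + ((i * N / n : ℕ) : ℤ) := ⟨_, fun i => rfl⟩
  have hb0 : b 0 = -(F : ℤ) - 1 := by rw [hb]; simp
  have hbn : b n = F := by
    rw [hb, Nat.mul_div_cancel_left _ (by omega), hN]; push_cast; ring
  have hmono : Monotone b := by
    intro i j hij
    rw [hb, hb]
    have : i * N / n ≤ j * N / n := Nat.div_le_div_right (Nat.mul_le_mul_right _ hij)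
    have : ((i * N / n : ℕ) : ℤ) ≤ ((j * N / n : ℕ) : ℤ) := by exact_mod_cast this
    linarith
  have hstep : ∀ i, ((b (i + 1) - b i : ℤ) : ℝ) ≤ N / n + 1 := by
    intro i
    have e : b (i + 1) - b i = (((i + 1) * N / n : ℕ) : ℤ) - ((i * N / n : ℕ) : ℤ) := by
      rw [hb, hb]; ring
    rw [e, Int.cast_sub, Int.cast_natCast, Int.cast_natCast]
    have h1 : (((i + 1) * N / n : ℕ) : ℝ) ≤ ((i + 1) * N : ℕ) / (n : ℝ) := Nat.cast_div_le
    have h2 : ((i * N : ℕ) : ℝ) / n < ((i * N / n : ℕ) : ℝ) + 1 := by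
      rw [div_lt_iff₀ hn0]
      have h3 : i * N < (i * N / n + 1) * n := by
        have h4 := Nat.div_add_mod (i * N) n
        have h5 := Nat.mod_lt (i * N) (show n > 0 by omega)
        nlinarith
      exact_mod_cast h3
    have h4 : (((i + 1) * N : ℕ) : ℝ) / (n : ℝ) = ((i * N : ℕ) : ℝ) / n + N / n := by
      push_cast; ring
    rw [h4] at h1
    linarith
  obtain ⟨X2, hX2⟩ : ∃ X2 : ℝ, X2 = |(x : ℝ)| * (T : ℝ) ^ 2 := ⟨_, rfl⟩
  have hX21 : 1 ≤ X2 := by rw [hX2]; nlinarith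
  have hNn : (N : ℝ) / n ≤ X2 / 12 := by
    rw [div_le_div_iff₀ hn0 (by norm_num)]
    rw [← hX2] at hnL
    nlinarith
  obtain ⟨g, hg⟩ : ∃ g : ℕ, g = Int.gcd x (2 * y) := ⟨_, rfl⟩
  have hg1 : 1 ≤ g := by rw [hg]; exact Int.gcd_pos_of_ne_zero_left _ hx
  have hg0 : (0 : ℝ) < g := by exact_mod_cast hg1
  obtain ⟨Q, hQ⟩ : ∃ Q, Q = L * (T * √(T : ℝ)) * √(|(x : ℝ)| / |(y : ℝ)|) := ⟨_, rfl⟩
  have hQ0 : 0 ≤ Q := by rw [hQ]; positivity
  rw [← hg, ← hQ]
  have hblk : ∀ i ∈ range n, ((S.filter (fun B => b i < B.c ∧ B.c ≤ b (i + 1))).card : ℝ) ≤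
      ((g : ℝ) / |(x : ℝ)|) * (6 * Q / M + 1) *
        (((Ioc (b i) (b (i + 1))).filter (fun c : ℤ => (M : ℤ) ∣ c - β.c ∧ (g : ℤ) ∣ 3 * c ^ 2 + a)).card : ℝ) +
      4 * (3 * L / √|(x : ℝ)|) * √|((3 * M : ℤ) : ℝ)| * (1 + Real.log (3 * L)) ^ 2 * tn x.natAbs := by
    intro i hi
    rw [mem_range] at hi
    have hbi0 : b 0 ≤ b i := hmono (Nat.zero_le i)
    have hbi1 : b (i + 1) ≤ b n := hmono hi
    have hbi2 : b i ≤ b (i + 1) := hmono (Nat.le_succ i)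
    rw [hb0] at hbi0
    rw [hbn] at hbi1
    have := block hEQ L M T a x y β hL hM hT hx hy hβx hβy hβ hxL (b i) (b (i + 1)) hbi2 ?_ ?_
      (S.filter (fun B => b i < B.c ∧ B.c ≤ b (i + 1))) ?_
    · rw [← hg, ← hQ] at this
      exact this
    · refine le_trans ?_ hN3
      have : b (i + 1) - b i ≤ (N : ℤ) := by rw [hN]; push_cast; omega
      exact_mod_cast this
    · intro c hc0 hc1
      have e1 : 3 * (c : ℝ) ^ 2 - 3 * (b i : ℝ) ^ 2 = 3 * (((c - b i : ℤ) : ℝ) * ((c + b i : ℤ) : ℝ)) := by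
        push_cast; ring
      rw [e1, abs_mul, abs_mul, abs_of_pos (show (0 : ℝ) < 3 by norm_num)]
      have e2 : |((c - b i : ℤ) : ℝ)| ≤ 13 / 12 * X2 := by
        have h1 : (0 : ℝ) ≤ ((c - b i : ℤ) : ℝ) := by
          have : 0 ≤ c - b i := by omega
          exact_mod_cast this
        rw [abs_of_nonneg h1]
        have h2 : ((c - b i : ℤ) : ℝ) ≤ ((b (i + 1) - b i : ℤ) : ℝ) := by
          have : c - b i ≤ b (i + 1) - b i := by omega
          exact_mod_cast this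
        have h3 := hstep i
        linarith
      have e3 : |((c + b i : ℤ) : ℝ)| ≤ 3 * L := by
        refine le_trans ?_ hN3
        have : |c + b i| ≤ (N : ℤ) := by
          rw [abs_le, hN]; push_cast; omega
        exact_mod_cast this
      have e4 : 10 * (|(x : ℝ)| * (L * (T : ℝ) ^ 2)) = 10 * (X2 * L) := by rw [hX2]; ring
      rw [e4]
      have e5 := mul_le_mul e2 e3 (abs_nonneg _) (by linarith)
      have e6 : 0 ≤ X2 * L := by positivity
      nlinarith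
    · intro B hB
      rw [mem_filter] at hB
      obtain ⟨h1, h2, h3, h4, h5⟩ := hS B hB.1
      exact ⟨h1, h2, h3, h4, h5, hB.2.1, hB.2.2⟩
  have hcov : (S.card : ℝ) ≤ ∑ i ∈ range n, ((S.filter (fun B => b i < B.c ∧ B.c ≤ b (i + 1))).card : ℝ) := by
    have h1 : S ⊆ (range n).biUnion (fun i => S.filter (fun B => b i < B.c ∧ B.c ≤ b (i + 1))) := by
      intro B hB
      obtain ⟨h1, h2, h3, h4, h5⟩ := hS B hB
      have hc := h5.c
      rw [abs_le] at hc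
      have h6 : b 0 < B.c := by
        rw [hb0]
        have : (-(F : ℝ) - 1) < B.c := by linarith
        exact_mod_cast this
      have h7 : B.c ≤ b n := by
        rw [hbn]
        have : (B.c : ℝ) < F + 1 := by linarith
        have : B.c < (F : ℤ) + 1 := by exact_mod_cast this
        omega
      obtain ⟨i, hi, h8, h9⟩ := mem_block b n B.c h6 h7
      rw [mem_biUnion]
      exact ⟨i, mem_range.2 hi, mem_filter.2 ⟨hB, h8, h9⟩⟩
    have h2 := (card_le_card h1).trans card_biUnion_le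
    exact_mod_cast h2
  have hsum := hcov.trans (sum_le_sum hblk)
  rw [sum_add_distrib, ← mul_sum, sum_const, card_range, nsmul_eq_mul] at hsum
  have hR := sum_blocks b hmono (fun c : ℤ => (M : ℤ) ∣ c - β.c ∧ (g : ℤ) ∣ 3 * c ^ 2 + a) n
  have hR' : ∑ i ∈ range n, (((Ioc (b i) (b (i + 1))).filter
      (fun c : ℤ => (M : ℤ) ∣ c - β.c ∧ (g : ℤ) ∣ 3 * c ^ 2 + a)).card : ℝ) =
      (((Ioc (b 0) (b n)).filter (fun c : ℤ => (M : ℤ) ∣ c - β.c ∧ (g : ℤ) ∣ 3 * c ^ 2 + a)).card : ℝ) := by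
    exact_mod_cast hR
  rw [hR'] at hsum
  have hgM : Nat.Coprime g M := by
    have h1 : g ∣ 2 * Int.gcd x y := by
      have h2 : g ∣ Nat.gcd (2 * x.natAbs) (2 * y.natAbs) := by
        rw [hg]
        apply Nat.dvd_gcd
        · exact (Nat.gcd_dvd_left x.natAbs (2 * y).natAbs).trans (Dvd.intro_left _ rfl)
        · have h3 := Nat.gcd_dvd_right x.natAbs (2 * y).natAbs
          have h4 : (2 * y).natAbs = 2 * y.natAbs := by rw [Int.natAbs_mul]; rfl
          rw [h4] at h3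
          unfold Int.gcd
          rw [h4]
          exact h3
      rw [Nat.gcd_mul_left] at h2
      exact h2
    have h3 : Nat.Coprime (2 * Int.gcd x y) M := by
      apply Nat.Coprime.mul_left _ hcop
      exact (Nat.coprime_two_left).2 hMo
    exact Nat.Coprime.coprime_dvd_left h1 h3
  have hrho := hRHO g M a β.c (-(F : ℤ) - 1) N hg1 hM hgM
  have hend : -(F : ℤ) - 1 + (N : ℤ) = F := by rw [hN]; push_cast; ring
  rw [hend] at hrho
  rw [hb0, hbn] at hsum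
  refine hsum.trans ?_
  have hA : (g : ℝ) / |(x : ℝ)| * (6 * Q / M + 1) ≤ 6 * ((g : ℝ) / |(x : ℝ)| * (Q / M + 1)) := by
    have h1 : 0 ≤ (g : ℝ) / |(x : ℝ)| := by positivity
    have h2 : 6 * Q / M + 1 ≤ 6 * (Q / M + 1) := by
      have : 6 * Q / M = 6 * (Q / M) := by ring
      rw [this]; linarith
    nlinarith
  have hB : 12 * tn g * √(g : ℝ) * ((N : ℝ) / (g * M) + 1) ≤ 36 * (tn g * √(g : ℝ)) * (L / (g * M) + 1) := by
    have h1 : (N : ℝ) / (g * M) + 1 ≤ 3 * (L / (g * M) + 1) := by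
      have h2 : (N : ℝ) / (g * M) ≤ 3 * L / (g * M) := by gcongr
      have h3 : 3 * L / (g * M) = 3 * (L / (g * M)) := by ring
      rw [h3] at h2
      linarith
    have h2 : 0 ≤ (tn g : ℝ) * √(g : ℝ) := by positivity
    nlinarith
  have hC : √|((3 * M : ℤ) : ℝ)| ≤ 2 * √(M : ℝ) := by
    have h1 : |((3 * M : ℤ) : ℝ)| = 3 * M := by
      push_cast
      exact abs_of_pos (by positivity)
    rw [h1]
    apply Real.sqrt_le_iff.2
    constructor
    · positivity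
    · rw [mul_pow, Real.sq_sqrt hM0.le]; linarith
  have hP : 0 ≤ (g : ℝ) / |(x : ℝ)| * (Q / M + 1) := by positivity
  have hP2 : 0 ≤ (g : ℝ) / |(x : ℝ)| * (6 * Q / M + 1) := by positivity
  have hterm1 : (g : ℝ) / |(x : ℝ)| * (6 * Q / M + 1) *
      (((Ioc (-(F : ℤ) - 1) (F : ℤ)).filter (fun c : ℤ => (M : ℤ) ∣ c - β.c ∧ (g : ℤ) ∣ 3 * c ^ 2 + a)).card : ℝ) ≤
      1000 * (tn g * √(g : ℝ)) * ((g : ℝ) / |(x : ℝ)|) * (Q / M + 1) * (L / (g * M) + 1) := by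
    calc _ ≤ (6 * ((g : ℝ) / |(x : ℝ)| * (Q / M + 1))) * (36 * (tn g * √(g : ℝ)) * (L / (g * M) + 1)) :=
          mul_le_mul hA (hrho.trans hB) (by positivity) (by positivity)
      _ = 216 * ((tn g * √(g : ℝ)) * ((g : ℝ) / |(x : ℝ)|) * (Q / M + 1) * (L / (g * M) + 1)) := by ring
      _ ≤ 1000 * ((tn g * √(g : ℝ)) * ((g : ℝ) / |(x : ℝ)|) * (Q / M + 1) * (L / (g * M) + 1)) := by
          apply mul_le_mul_of_nonneg_right (by norm_num) (by positivity)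
      _ = _ := by ring
  have hterm2 : (n : ℝ) * (4 * (3 * L / √|(x : ℝ)|) * √|((3 * M : ℤ) : ℝ)| * (1 + Real.log (3 * L)) ^ 2 * tn x.natAbs) ≤
      1000 * n * √(M : ℝ) * (L / √|(x : ℝ)|) * (1 + Real.log (3 * L)) ^ 2 * tn x.natAbs := by
    calc _ ≤ (n : ℝ) * (4 * (3 * L / √|(x : ℝ)|) * (2 * √(M : ℝ)) * (1 + Real.log (3 * L)) ^ 2 * tn x.natAbs) := by
          gcongr
      _ = 24 * (n * √(M : ℝ) * (L / √|(x : ℝ)|) * (1 + Real.log (3 * L)) ^ 2 * tn x.natAbs) := by ring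
      _ ≤ 1000 * (n * √(M : ℝ) * (L / √|(x : ℝ)|) * (1 + Real.log (3 * L)) ^ 2 * tn x.natAbs) := by
          apply mul_le_mul_of_nonneg_right (by norm_num) (by positivity)
      _ = _ := by ring
  exact add_le_add hterm1 hterm2

end Pool.Agent.L0h53.LR
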